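import Pool.Agent.V7H97.OF.Both

set_option autoImplicit false
open MeasureTheory ProbabilityTheory Filter
open scoped Pointwise

/-!
Planar first-passage percolation with Exp(1) weights: the exponent `1 / 5`. Each of the two halves
of Q1 of MP_de94ef_pr is false when `2 / 3` is replaced by any number above `4 / 5`: the inner event
has, for arbitrarily large times, a probability above any number below `1 / e`, and the outer event
has a probability above `t ^ (-481)`. For the passage times this means that, for every `χ < 1 / 5`,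
the variance of `T(0,v)`, its mean absolute deviation from any deterministic centring, the nonrandom
error `E T(0,v) - μ(v)`, the doubling defect of the mean and the typical upper deviations of
`T(0,v)` from `μ(v)` are not bounded by the corresponding power `|v| ^ (2 χ)` or `|v| ^ χ`, and that
the lower deviations of `T(0,v)` below `μ(v)` on the scale `|v| ^ χ` have a probability that is not
smaller than a fixed power of `|v|`. Nothing is assumed on the limit shape.
-/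

namespace Pool.Agent.Results.MP_de94ef_pr.BothHalvesFifthH97

/-- the fattened cluster at time `t`, for the passage times `T` from the origin -/
def Cluster (T : ℤ × ℤ → ℝ) (t : ℝ) : Set (ℝ × ℝ) :=
  {x : ℝ × ℝ | ∃ v : ℤ × ℤ, T v ≤ t ∧ |x.1 - (v.1 : ℝ)| ≤ 1 / 2 ∧ |x.2 - (v.2 : ℝ)| ≤ 1 / 2}

/-- the inner event: a part of `(1 - t ^ (-κ)) t` times the limit shape is missed by the fattened
cluster at time `t` -/
def Missed {Ω : Type} (T : Ω → ℤ × ℤ → ℝ) (μ : ℝ × ℝ → ℝ) (κ t : ℝ) : Set Ω :=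
  {ω | ¬ (((1 - t ^ (-κ)) * t) • {x : ℝ × ℝ | μ x ≤ 1} ⊆ Cluster (T ω) t)}

/-- the outer event: the fattened cluster at time `t` is not contained in `(1 + t ^ (-κ)) t` times
the limit shape -/
def Exceeded {Ω : Type} (T : Ω → ℤ × ℤ → ℝ) (μ : ℝ × ℝ → ℝ) (κ t : ℝ) : Set Ω :=
  {ω | ¬ (Cluster (T ω) t ⊆ ((1 + t ^ (-κ)) * t) • {x : ℝ × ℝ | μ x ≤ 1})}

/-- the size of a lattice point -/
def size (v : ℤ × ℤ) : ℝ := 1 + |(v.1 : ℝ)| + |(v.2 : ℝ)|

theorem result :
  ∀ (Ω : Type) [MeasureSpace Ω] [IsProbabilityMeasure (volume : Measure Ω)]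
    (X : Sym2 (ℤ × ℤ) → Ω → ℝ) (T : Ω → ℤ × ℤ → ℝ) (μ : ℝ × ℝ → ℝ),
    (∀ e, Measurable (X e)) →
    iIndepFun X (volume : Measure Ω) →
    (∀ e, Measure.map (X e) (volume : Measure Ω) = expMeasure 1) →
    (∀ ω v, T ω v = sInf {s : ℝ | ∃ n : ℕ, ∃ p : ℕ → ℤ × ℤ, p 0 = 0 ∧ p n = v ∧
        (∀ i < n, |(p (i + 1)).1 - (p i).1| + |(p (i + 1)).2 - (p i).2| = 1) ∧
        s = ∑ i ∈ Finset.range n, X s(p i, p (i + 1)) ω}) →
    (∀ (x : ℝ × ℝ) (c : ℝ), 0 ≤ c → μ (c • x) = c * μ x) →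
    Continuous μ →
    (∀ z : ℤ × ℤ, ∀ᵐ ω ∂(volume : Measure Ω),
        Tendsto (fun n : ℕ => T ω ((n : ℤ) • z) / (n : ℝ)) atTop
          (nhds (μ ((z.1 : ℝ), (z.2 : ℝ))))) →
    -- the inner estimate of Q1 with `t ^ (-κ)` fails for every `κ > 4 / 5`
    (∀ κ p : ℝ, 4 / 5 < κ → p < Real.exp (-1) →
      ∃ᶠ t : ℝ in atTop, p < (volume : Measure Ω).real (Missed T μ κ t)) ∧
    -- the outer estimate of Q1 with `t ^ (-κ)` fails for every `κ > 4 / 5`
    (∀ κ : ℝ, 4 / 5 < κ →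
      ∃ᶠ t : ℝ in atTop, t ^ (-481 : ℝ) < (volume : Measure Ω).real (Exceeded T μ κ t)) ∧
    ∀ χ A : ℝ, χ < 1 / 5 →
      -- the variance
      (∃ v : ℤ × ℤ, A * size v ^ (2 * χ) < variance (fun ω => T ω v) (volume : Measure Ω)) ∧
      -- the fluctuations about any deterministic centring
      (∀ a : ℤ × ℤ → ℝ, ∃ v : ℤ × ℤ, A * size v ^ χ <
        ∫ ω, |T ω v - a v| ∂(volume : Measure Ω)) ∧
      -- the nonrandom error
      (∃ v : ℤ × ℤ, μ ((v.1 : ℝ), (v.2 : ℝ)) + A * size v ^ χ <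
        ∫ ω, T ω v ∂(volume : Measure Ω)) ∧
      -- the doubling defect of the mean
      (∃ v : ℤ × ℤ, ∫ ω, T ω (v + v) ∂(volume : Measure Ω) + A * size v ^ χ <
        2 * ∫ ω, T ω v ∂(volume : Measure Ω)) ∧
      -- the upper deviations from the time constant
      (∀ p : ℝ, p < Real.exp (-1) → ∃ v : ℤ × ℤ, p < (volume : Measure Ω).real
        {ω | μ ((v.1 : ℝ), (v.2 : ℝ)) + A * size v ^ χ ≤ T ω v}) ∧
      -- the lower deviations from the time constant
      (∀ N : ℝ, ∃ v : ℤ × ℤ, N ≤ size v ∧ size v ^ (-481 : ℝ) < (volume : Measure Ω).real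
        {ω | T ω v + A * size v ^ χ ≤ μ ((v.1 : ℝ), (v.2 : ℝ))}) := by
  intro Ω _ _ X T μ h1 h2 h3 hT hhom hcont hlim
  obtain ⟨hX, hTD, p, hp, hG⟩ :=
    Pool.Agent.N662.FP.setup Ω X T μ h1 h2 h3 hT hhom hcont hlim
  subst hp
  subst hTD
  exact Pool.Agent.V7H97.OF.both hX hG hlim

end Pool.Agent.Results.MP_de94ef_pr.BothHalvesFifthH97
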