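import Pool.Agent.V7H97.FO.AS

set_option autoImplicit false
open MeasureTheory ProbabilityTheory Filter
open scoped Pointwise

/-!
Planar first-passage percolation with Exp(1) weights: the outer half of Q1 of MP_de94ef_pr follows
from its inner half, with the same exponents and without any assumption on the limit shape, so that
Q1 is equivalent to its inner half, to the almost sure shape estimates with these exponents, even to
the inner one alone, and to the statement that the typical size of the fluctuations of `T(0,v)`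
about the time constant is at most `|v| ^ (1/3 + o(1))`.
-/

namespace Pool.Agent.Results.MP_de94ef_pr.OuterHalfH97

/-- the fattened cluster at time `t`, for the passage times `T` from the origin -/
def Cluster (T : ℤ × ℤ → ℝ) (t : ℝ) : Set (ℝ × ℝ) :=
  {x : ℝ × ℝ | ∃ v : ℤ × ℤ, T v ≤ t ∧ |x.1 - (v.1 : ℝ)| ≤ 1 / 2 ∧ |x.2 - (v.2 : ℝ)| ≤ 1 / 2}

/-- the inner event: a part of `(1 - t ^ (-κ)) t` times the limit shape is missed by the fattened
cluster at time `t` -/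
def Missed {Ω : Type} (T : Ω → ℤ × ℤ → ℝ) (μ : ℝ × ℝ → ℝ) (κ t : ℝ) : Set Ω :=
  {ω | ¬ (((1 - t ^ (-κ)) * t) • {x : ℝ × ℝ | μ x ≤ 1} ⊆ Cluster (T ω) t)}

/-- the outer event: the fattened cluster at time `t` is not contained in `(1 + t ^ (-κ)) t` times
the limit shape -/
def Exceeded {Ω : Type} (T : Ω → ℤ × ℤ → ℝ) (μ : ℝ × ℝ → ℝ) (κ t : ℝ) : Set Ω :=
  {ω | ¬ (Cluster (T ω) t ⊆ ((1 + t ^ (-κ)) * t) • {x : ℝ × ℝ | μ x ≤ 1})}

/-- the lattice point `v` as a point of the plane -/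
def pt (v : ℤ × ℤ) : ℝ × ℝ := ((v.1 : ℝ), (v.2 : ℝ))

theorem result :
  ∀ (Ω : Type) [MeasureSpace Ω] [IsProbabilityMeasure (volume : Measure Ω)]
    (X : Sym2 (ℤ × ℤ) → Ω → ℝ) (T : Ω → ℤ × ℤ → ℝ) (μ : ℝ × ℝ → ℝ),
    (∀ e, Measurable (X e)) →
    iIndepFun X (volume : Measure Ω) →
    (∀ e, Measure.map (X e) (volume : Measure Ω) = expMeasure 1) →
    (∀ ω v, T ω v = sInf {s : ℝ | ∃ n : ℕ, ∃ p : ℕ → ℤ × ℤ, p 0 = 0 ∧ p n = v ∧
        (∀ i < n, |(p (i + 1)).1 - (p i).1| + |(p (i + 1)).2 - (p i).2| = 1) ∧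
        s = ∑ i ∈ Finset.range n, X s(p i, p (i + 1)) ω}) →
    (∀ (x : ℝ × ℝ) (c : ℝ), 0 ≤ c → μ (c • x) = c * μ x) →
    Continuous μ →
    (∀ z : ℤ × ℤ, ∀ᵐ ω ∂(volume : Measure Ω),
        Tendsto (fun n : ℕ => T ω ((n : ℤ) • z) / (n : ℝ)) atTop
          (nhds (μ ((z.1 : ℝ), (z.2 : ℝ))))) →
    ∀ K : ℝ, K < 1 → List.TFAE [
      -- (1) for `K = 2 / 3`: Q1
      ∀ κ : ℝ, 0 < κ → κ < K → ∀ q : ℝ, 0 < q →
        Asymptotics.IsBigO atTop
          (fun t : ℝ => (volume : Measure Ω).real (Exceeded T μ κ t)) (fun t : ℝ => t ^ (-q)) ∧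
        Asymptotics.IsBigO atTop
          (fun t : ℝ => (volume : Measure Ω).real (Missed T μ κ t)) (fun t : ℝ => t ^ (-q)),
      -- (2) both halves, with stretched exponential rates
      ∀ κ : ℝ, 0 < κ → κ < K → ∃ c : ℝ, 0 < c ∧ ∀ᶠ t : ℝ in atTop,
        (volume : Measure Ω).real (Exceeded T μ κ t) ≤ Real.exp (-(t ^ c)) ∧
        (volume : Measure Ω).real (Missed T μ κ t) ≤ Real.exp (-(t ^ c)),
      -- (3) almost surely, neither event occurs for large `t`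
      ∀ κ : ℝ, 0 < κ → κ < K → ∀ᵐ ω ∂(volume : Measure Ω), ∀ᶠ t : ℝ in atTop,
        ω ∉ Exceeded T μ κ t ∧ ω ∉ Missed T μ κ t,
      -- (4) almost surely, the inner event does not occur for large `t`
      ∀ κ : ℝ, 0 < κ → κ < K → ∀ᵐ ω ∂(volume : Measure Ω), ∀ᶠ t : ℝ in atTop,
        ω ∉ Missed T μ κ t,
      -- (5) for `K = 2 / 3`: the inner half of Q1
      ∀ κ : ℝ, 0 < κ → κ < K → ∀ q : ℝ, 0 < q →
        Asymptotics.IsBigO atTop
          (fun t : ℝ => (volume : Measure Ω).real (Missed T μ κ t)) (fun t : ℝ => t ^ (-q)),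
      -- (6) the inner event has probability bounded away from `1 / e`
      ∀ κ : ℝ, 0 < κ → κ < K → ∃ e : ℝ, e < Real.exp (-1) ∧
        ∀ᶠ t : ℝ in atTop, (volume : Measure Ω).real (Missed T μ κ t) ≤ e,
      -- (7) one point: the passage time is typically not much larger than the time constant
      ∀ κ : ℝ, 0 < κ → κ < K → ∃ e : ℝ, e < Real.exp (-1) ∧ ∃ A : ℝ, 0 < A ∧ ∀ v : ℤ × ℤ,
        (volume : Measure Ω).real
          {ω | μ (pt v) + A * (1 + μ (pt v)) ^ (1 - κ) ≤ T ω v} ≤ e,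
      -- (8) one point, in mean
      ∀ κ : ℝ, 0 < κ → κ < K → ∃ A : ℝ, ∀ v : ℤ × ℤ,
        ∫ ω, |T ω v - μ (pt v)| ∂(volume : Measure Ω) ≤ A * (1 + μ (pt v)) ^ (1 - κ),
      -- (9) one point, in probability
      ∀ κ : ℝ, 0 < κ → κ < K → ∀ ε : ℝ, 0 < ε → Tendsto (fun v : ℤ × ℤ =>
        (volume : Measure Ω).real {ω | ε * (1 + μ (pt v)) ^ (1 - κ) ≤ |T ω v - μ (pt v)|})
        cofinite (nhds 0),
      -- (10) one point, both tails, with stretched exponential rate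
      ∀ κ : ℝ, 0 < κ → κ < K → ∃ c : ℝ, 0 < c ∧ ∀ᶠ v : ℤ × ℤ in cofinite,
        (volume : Measure Ω).real {ω | (1 + μ (pt v)) ^ (1 - κ) ≤ |T ω v - μ (pt v)|} ≤
          Real.exp (-(μ (pt v) ^ c))] := by
  intro Ω _ _ X T μ h1 h2 h3 hT hhom hcont hlim K hK
  obtain ⟨hX, hTD, p, hp, hG⟩ :=
    Pool.Agent.N662.FP.setup Ω X T μ h1 h2 h3 hT hhom hcont hlim
  subst hp
  subst hTD
  exact Pool.Agent.V7H97.FO.eqas hX hG K hK

end Pool.Agent.Results.MP_de94ef_pr.OuterHalfH97
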