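import Pool.Agent.V7H97.FO.Main2

set_option autoImplicit false
open MeasureTheory ProbabilityTheory Filter
open scoped Pointwise

/-!
Planar first-passage percolation with Exp(1) weights: Q1 of MP_de94ef_pr is a statement on the
variance. For every `K < 1` the shape estimates with exponents below `K` hold if and only if
`Var T(0,v) ≤ |v| ^ (2 (1 - K) + o(1))`, if and only if the `L¹` fluctuations of `T(0,v)` about
some deterministic centring are at most `|v| ^ ((1 - K) + o(1))`; nothing is assumed on the limit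
shape. For `K = 2 / 3` the first item is Q1 and the second is `Var T(0,v) ≤ |v| ^ (2/3 + o(1))`.
-/

namespace Pool.Agent.Results.MP_de94ef_pr.VarianceExponentH97

/-- the fattened cluster at time `t`, for the passage times `T` from the origin -/
def Cluster (T : ℤ × ℤ → ℝ) (t : ℝ) : Set (ℝ × ℝ) :=
  {x : ℝ × ℝ | ∃ v : ℤ × ℤ, T v ≤ t ∧ |x.1 - (v.1 : ℝ)| ≤ 1 / 2 ∧ |x.2 - (v.2 : ℝ)| ≤ 1 / 2}

/-- the inner event: a part of `(1 - t ^ (-κ)) t` times the limit shape is missed by the fattened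
cluster at time `t` -/
def Missed {Ω : Type} (T : Ω → ℤ × ℤ → ℝ) (μ : ℝ × ℝ → ℝ) (κ t : ℝ) : Set Ω :=
  {ω | ¬ (((1 - t ^ (-κ)) * t) • {x : ℝ × ℝ | μ x ≤ 1} ⊆ Cluster (T ω) t)}

/-- the outer event: the fattened cluster at time `t` is not contained in `(1 + t ^ (-κ)) t` times
the limit shape -/
def Exceeded {Ω : Type} (T : Ω → ℤ × ℤ → ℝ) (μ : ℝ × ℝ → ℝ) (κ t : ℝ) : Set Ω :=
  {ω | ¬ (Cluster (T ω) t ⊆ ((1 + t ^ (-κ)) * t) • {x : ℝ × ℝ | μ x ≤ 1})}

/-- the size of a lattice point -/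
def size (v : ℤ × ℤ) : ℝ := 1 + |(v.1 : ℝ)| + |(v.2 : ℝ)|

theorem result :
  ∀ (Ω : Type) [MeasureSpace Ω] [IsProbabilityMeasure (volume : Measure Ω)]
    (X : Sym2 (ℤ × ℤ) → Ω → ℝ) (T : Ω → ℤ × ℤ → ℝ) (μ : ℝ × ℝ → ℝ),
    (∀ e, Measurable (X e)) →
    iIndepFun X (volume : Measure Ω) →
    (∀ e, Measure.map (X e) (volume : Measure Ω) = expMeasure 1) →
    (∀ ω v, T ω v = sInf {s : ℝ | ∃ n : ℕ, ∃ p : ℕ → ℤ × ℤ, p 0 = 0 ∧ p n = v ∧
        (∀ i < n, |(p (i + 1)).1 - (p i).1| + |(p (i + 1)).2 - (p i).2| = 1) ∧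
        s = ∑ i ∈ Finset.range n, X s(p i, p (i + 1)) ω}) →
    (∀ (x : ℝ × ℝ) (c : ℝ), 0 ≤ c → μ (c • x) = c * μ x) →
    Continuous μ →
    (∀ z : ℤ × ℤ, ∀ᵐ ω ∂(volume : Measure Ω),
        Tendsto (fun n : ℕ => T ω ((n : ℤ) • z) / (n : ℝ)) atTop
          (nhds (μ ((z.1 : ℝ), (z.2 : ℝ))))) →
    ∀ K : ℝ, K < 1 → List.TFAE [
      -- (1) for `K = 2 / 3`: Q1
      ∀ κ : ℝ, 0 < κ → κ < K → ∀ q : ℝ, 0 < q →
        Asymptotics.IsBigO atTop
          (fun t : ℝ => (volume : Measure Ω).real (Exceeded T μ κ t)) (fun t : ℝ => t ^ (-q)) ∧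
        Asymptotics.IsBigO atTop
          (fun t : ℝ => (volume : Measure Ω).real (Missed T μ κ t)) (fun t : ℝ => t ^ (-q)),
      -- (2) the variance of the passage time
      ∀ κ : ℝ, 0 < κ → κ < K → ∃ A : ℝ, ∀ v : ℤ × ℤ,
        variance (fun ω => T ω v) (volume : Measure Ω) ≤ A * size v ^ (2 * (1 - κ)),
      -- (3) the mean absolute deviation of the passage time from its mean
      ∀ κ : ℝ, 0 < κ → κ < K → ∃ A : ℝ, ∀ v : ℤ × ℤ,
        ∫ ω, |T ω v - ∫ ω', T ω' v ∂(volume : Measure Ω)| ∂(volume : Measure Ω) ≤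
          A * size v ^ (1 - κ),
      -- (4) the mean absolute deviation of the passage time from some deterministic centring
      ∀ κ : ℝ, 0 < κ → κ < K → ∃ (A : ℝ) (a : ℤ × ℤ → ℝ), ∀ v : ℤ × ℤ,
        ∫ ω, |T ω v - a v| ∂(volume : Measure Ω) ≤ A * size v ^ (1 - κ)] := by
  intro Ω _ _ X T μ h1 h2 h3 hT hhom hcont hlim K hK
  obtain ⟨hX, hTD, p, hp, hG⟩ :=
    Pool.Agent.N662.FP.setup Ω X T μ h1 h2 h3 hT hhom hcont hlim
  subst hp
  subst hTD
  exact Pool.Agent.V7H97.FO.eq2 hX hG hlim K hK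

end Pool.Agent.Results.MP_de94ef_pr.VarianceExponentH97
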